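import Pool.Agent.Helper548.Knot.Base

/-! Distance of edges without common vertex. -/

set_option autoImplicit false
set_option backward.isDefEq.respectTransparency.types false

namespace Knot548

theorem zz_hseg_of {ι : Type*} [Fintype ι] {m : ℕ} (p : Fin (m + 1) → (ι → ℝ)) (k : Fin (m + 1))
    (s : ℝ) (h0 : 0 ≤ s) (h1 : s ≤ 1) : ∃ k', (k' = k ∨ k' = k + 1) ∧
      (1 - s) • p k + s • p (k + 1) ∈ hseg (p k') (p (k' + 1)) := by
  rcases h1.lt_or_eq with h | h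
  · exact ⟨k, Or.inl rfl, s, h0, h, rfl⟩
  · refine ⟨k + 1, Or.inr rfl, 0, le_rfl, one_pos, ?_⟩
    rw [h]
    simp

/-- closed segments of two edges without common vertex have positive distance -/
theorem far_const {ι : Type*} [Fintype ι] {m : ℕ} (p : Fin (m + 1) → (ι → ℝ))
    (h2 : ∀ k l : Fin (m + 1), k ≠ l → Disjoint (hseg (p k) (p (k + 1))) (hseg (p l) (p (l + 1))))
    (k l : Fin (m + 1)) (hkl : k ≠ l) (h3 : l ≠ k + 1) (h4 : k ≠ l + 1) :
    ∃ c : ℝ, 0 < c ∧ ∀ s ∈ Set.Icc (0 : ℝ) 1, ∀ t ∈ Set.Icc (0 : ℝ) 1,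
      c ≤ ‖((1 - s) • p k + s • p (k + 1)) - ((1 - t) • p l + t • p (l + 1))‖ := by
  have hne : ∀ s ∈ Set.Icc (0 : ℝ) 1, ∀ t ∈ Set.Icc (0 : ℝ) 1,
      0 < ‖((1 - s) • p k + s • p (k + 1)) - ((1 - t) • p l + t • p (l + 1))‖ := by
    intro s hs t ht
    rw [norm_pos_iff, sub_ne_zero]
    intro heq
    obtain ⟨k', hk', hx⟩ := zz_hseg_of p k s hs.1 hs.2
    obtain ⟨l', hl', hy⟩ := zz_hseg_of p l t ht.1 ht.2
    have hkl' : k' ≠ l' := by
      rcases hk' with rfl | rfl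
      · rcases hl' with rfl | rfl
        · exact hkl
        · exact h4
      · rcases hl' with rfl | rfl
        · exact h3.symm
        · intro h
          exact hkl (add_right_cancel h)
    rw [heq] at hx
    exact Set.disjoint_left.1 (h2 k' l' hkl') hx hy
  have hcont : Continuous (fun q : ℝ × ℝ =>
      ‖((1 - q.1) • p k + q.1 • p (k + 1)) - ((1 - q.2) • p l + q.2 • p (l + 1))‖) := by
    fun_prop
  obtain ⟨q, hq, hmin⟩ := (isCompact_Icc.prod isCompact_Icc).exists_isMinOn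
    (s := Set.Icc (0 : ℝ) 1 ×ˢ Set.Icc (0 : ℝ) 1)
    ⟨((0 : ℝ), (0 : ℝ)), ⟨by simp, by simp⟩⟩ hcont.continuousOn
  refine ⟨_, hne q.1 hq.1 q.2 hq.2, fun s hs t ht => ?_⟩
  exact isMinOn_iff.1 hmin (s, t) ⟨hs, ht⟩

end Knot548
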