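import Mathlib

set_option autoImplicit false
set_option backward.isDefEq.respectTransparency.types false

namespace Knot548

/-- `B` is the image of `A` under an ambient isotopy. -/
def AmbIso {X : Type*} [TopologicalSpace X] (A B : Set X) : Prop :=
  ∃ H : unitInterval → X ≃ₜ X, Continuous (fun q : unitInterval × X => H q.1 q.2) ∧
    (∀ x, H 0 x = x) ∧ H 1 '' A = B

theorem AmbIso.refl {X : Type*} [TopologicalSpace X] (A : Set X) : AmbIso A A := by
  exact ⟨fun _ => Homeomorph.refl X, continuous_snd, fun x => rfl, by simp⟩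

theorem AmbIso.symm {X : Type*} [TopologicalSpace X] {A B : Set X} (h : AmbIso A B) :
    AmbIso B A := by
  obtain ⟨H, hc, h0, h1⟩ := h
  refine ⟨fun t => (H 1).symm.trans (H (unitInterval.symm t)), ?_, ?_, ?_⟩
  · have h2 : Continuous (fun q : unitInterval × X => (unitInterval.symm q.1, (H 1).symm q.2)) := by
      fun_prop
    exact hc.comp h2
  · intro x
    change H (unitInterval.symm 0) ((H 1).symm x) = x
    rw [unitInterval.symm_zero, Homeomorph.apply_symm_apply]
  · rw [← h1]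
    ext x
    constructor
    · rintro ⟨_, ⟨a, ha, rfl⟩, rfl⟩
      change H (unitInterval.symm 1) ((H 1).symm (H 1 a)) ∈ A
      rw [unitInterval.symm_one, Homeomorph.symm_apply_apply, h0]
      exact ha
    · intro hx
      refine ⟨H 1 x, ⟨x, hx, rfl⟩, ?_⟩
      change H (unitInterval.symm 1) ((H 1).symm (H 1 x)) = x
      rw [unitInterval.symm_one, Homeomorph.symm_apply_apply, h0]

theorem AmbIso.trans {X : Type*} [TopologicalSpace X] {A B C : Set X} (h : AmbIso A B)
    (h' : AmbIso B C) : AmbIso A C := by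
  obtain ⟨H, hc, h0, h1⟩ := h
  obtain ⟨K, kc, k0, k1⟩ := h'
  refine ⟨fun t => (H t).trans (K t), ?_, ?_, ?_⟩
  · have h2 : Continuous (fun q : unitInterval × X => (q.1, H q.1 q.2)) :=
      continuous_fst.prodMk hc
    exact kc.comp h2
  · intro x
    change K 0 (H 0 x) = x
    rw [h0, k0]
  · rw [← k1, ← h1, Set.image_image]
    rfl

/-- a small Lipschitz displacement is the end of an ambient isotopy -/
theorem ambIso_of_lipschitz {ι : Type*} [Fintype ι] (D : (ι → ℝ) → (ι → ℝ)) (K : NNReal)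
    (hK : K < 1) (hD : LipschitzWith K D) (A : Set (ι → ℝ)) :
    AmbIso A ((fun x => x + D x) '' A) := by
  have happ : ∀ t : unitInterval, ApproximatesLinearOn (fun x : ι → ℝ => x + (t : ℝ) • D x)
      ((ContinuousLinearEquiv.refl ℝ (ι → ℝ) : (ι → ℝ) ≃L[ℝ] (ι → ℝ)) : (ι → ℝ) →L[ℝ] (ι → ℝ))
      Set.univ K := by
    intro t x _ y _
    have h1 : x + (t : ℝ) • D x - (y + (t : ℝ) • D y) -
        ((ContinuousLinearEquiv.refl ℝ (ι → ℝ) : (ι → ℝ) ≃L[ℝ] (ι → ℝ)) :
          (ι → ℝ) →L[ℝ] (ι → ℝ)) (x - y) = (t : ℝ) • (D x - D y) := by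
      change x + (t : ℝ) • D x - (y + (t : ℝ) • D y) - (x - y) = (t : ℝ) • (D x - D y)
      rw [smul_sub]
      abel
    rw [h1, norm_smul, Real.norm_eq_abs, abs_of_nonneg t.2.1]
    have h2 := hD.dist_le_mul x y
    rw [dist_eq_norm, dist_eq_norm] at h2
    calc (t : ℝ) * ‖D x - D y‖ ≤ 1 * ‖D x - D y‖ :=
          mul_le_mul_of_nonneg_right t.2.2 (norm_nonneg _)
      _ = ‖D x - D y‖ := one_mul _
      _ ≤ _ := h2
  have hcond : Subsingleton (ι → ℝ) ∨ K < ‖((ContinuousLinearEquiv.refl ℝ (ι → ℝ)).symm :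
      (ι → ℝ) →L[ℝ] (ι → ℝ))‖₊⁻¹ := by
    rcases subsingleton_or_nontrivial (ι → ℝ) with h | h
    · exact Or.inl h
    · right
      have h3 : ‖((ContinuousLinearEquiv.refl ℝ (ι → ℝ)).symm :
        (ι → ℝ) →L[ℝ] (ι → ℝ))‖₊ = 1 := by
        rw [← NNReal.coe_inj]
        exact ContinuousLinearMap.norm_id
      rw [h3, inv_one]
      exact hK
  refine ⟨fun t => (happ t).toHomeomorph _ hcond, ?_, ?_, ?_⟩
  · have hDc := hD.continuous
    change Continuous (fun q : unitInterval × (ι → ℝ) => q.2 + (q.1 : ℝ) • D q.2)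
    fun_prop
  · intro x
    change x + ((0 : unitInterval) : ℝ) • D x = x
    rw [Set.Icc.coe_zero, zero_smul, add_zero]
  · have h4 : (fun x : ι → ℝ => x + D x) = fun x => x + ((1 : unitInterval) : ℝ) • D x := by
      funext x
      rw [Set.Icc.coe_one, one_smul]
    rw [h4]
    rfl

end Knot548
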