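import Pool.Agent.Helper548.KnotD.D1
import Pool.Agent.Helper548.KnotD.D2
import Pool.Agent.Helper548.KnotD.D3
import Pool.Agent.Helper548.KnotD.D4

/-! Equivalent polygons are ambient isotopic. -/

set_option autoImplicit false
set_option backward.isDefEq.respectTransparency.types false

namespace Knot548

/-- the closed polygon with vertex list `L` as a set: the union of its closed edges -/
def polySet {E : Type*} [AddCommGroup E] [Module ℝ E] (L : List E) : Set E :=
  {q | ∃ e ∈ cedges L, q ∈ segment ℝ e.1 e.2}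

theorem norm_comb_le {ι : Type*} [Fintype ι] {a b : ι → ℝ} {δ s : ℝ} (ha : ‖a‖ ≤ δ) (hb : ‖b‖ ≤ δ)
    (hs : s ∈ Set.Icc (0 : ℝ) 1) : ‖(1 - s) • a + s • b‖ ≤ δ := by
  calc ‖(1 - s) • a + s • b‖ ≤ ‖(1 - s) • a‖ + ‖s • b‖ := norm_add_le _ _
    _ = (1 - s) * ‖a‖ + s * ‖b‖ := by
        rw [norm_smul, norm_smul, Real.norm_eq_abs, Real.norm_eq_abs, abs_of_nonneg hs.1,
          abs_of_nonneg (sub_nonneg.2 hs.2)]
    _ ≤ (1 - s) * δ + s * δ :=
        add_le_add (mul_le_mul_of_nonneg_left ha (sub_nonneg.2 hs.2))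
          (mul_le_mul_of_nonneg_left hb hs.1)
    _ = δ := by ring

theorem pair_const {ι : Type*} [Fintype ι] {m : ℕ} (p : Fin (m + 1) → (ι → ℝ))
    (h1 : ∀ k, p k ≠ p (k + 1))
    (h2 : ∀ k l : Fin (m + 1), k ≠ l → Disjoint (hseg (p k) (p (k + 1))) (hseg (p l) (p (l + 1))))
    (k l : Fin (m + 1)) :
    ∃ L : ℝ, 0 < L ∧ ∀ (d : Fin (m + 1) → (ι → ℝ)) (δ : ℝ), (∀ i, ‖d i‖ ≤ δ) →
      ∀ s ∈ Set.Icc (0 : ℝ) 1, ∀ t ∈ Set.Icc (0 : ℝ) 1,
        ‖((1 - s) • d k + s • d (k + 1)) - ((1 - t) • d l + t • d (l + 1))‖ ≤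
          L * δ * ‖((1 - s) • p k + s • p (k + 1)) - ((1 - t) • p l + t • p (l + 1))‖ := by
  by_cases hkl : k = l
  · subst hkl
    have hpos : 0 < ‖p (k + 1) - p k‖ := norm_pos_iff.2 (sub_ne_zero.2 (h1 k).symm)
    refine ⟨2 / ‖p (k + 1) - p k‖, by positivity, ?_⟩
    intro d δ hd s hs t ht
    have e1 : ((1 - s) • d k + s • d (k + 1)) - ((1 - t) • d k + t • d (k + 1)) =
        (s - t) • (d (k + 1) - d k) := by module
    have e2 : ((1 - s) • p k + s • p (k + 1)) - ((1 - t) • p k + t • p (k + 1)) =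
        (s - t) • (p (k + 1) - p k) := by module
    rw [e1, e2, norm_smul, norm_smul]
    have h3 : ‖d (k + 1) - d k‖ ≤ 2 * δ := by
      have := norm_sub_le (d (k + 1)) (d k)
      linarith [hd (k + 1), hd k]
    have h4 : 2 / ‖p (k + 1) - p k‖ * δ * (‖s - t‖ * ‖p (k + 1) - p k‖) = ‖s - t‖ * (2 * δ) := by
      field_simp
    rw [h4]
    exact mul_le_mul_of_nonneg_left h3 (norm_nonneg _)
  · by_cases h3 : l = k + 1
    · subst h3
      obtain ⟨c, hc, hcc⟩ := adj_const p h1 h2 k
      refine ⟨2 / c, by positivity, ?_⟩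
      intro d δ hd s hs t ht
      have hδ : 0 ≤ δ := (norm_nonneg _).trans (hd 0)
      have e1 : ((1 - s) • d k + s • d (k + 1)) - ((1 - t) • d (k + 1) + t • d (k + 1 + 1)) =
          (1 - s) • (d k - d (k + 1)) + t • (d (k + 1) - d (k + 1 + 1)) := by module
      rw [e1]
      have h4 : ‖d k - d (k + 1)‖ ≤ 2 * δ := by
        have := norm_sub_le (d k) (d (k + 1))
        linarith [hd (k + 1), hd k]
      have h5 : ‖d (k + 1) - d (k + 1 + 1)‖ ≤ 2 * δ := by
        have := norm_sub_le (d (k + 1)) (d (k + 1 + 1))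
        linarith [hd (k + 1), hd (k + 1 + 1)]
      have h6 : ‖(1 - s) • (d k - d (k + 1)) + t • (d (k + 1) - d (k + 1 + 1))‖ ≤
          ((1 - s) + t) * (2 * δ) := by
        calc _ ≤ ‖(1 - s) • (d k - d (k + 1))‖ + ‖t • (d (k + 1) - d (k + 1 + 1))‖ := norm_add_le _ _
          _ = (1 - s) * ‖d k - d (k + 1)‖ + t * ‖d (k + 1) - d (k + 1 + 1)‖ := by
              rw [norm_smul, norm_smul, Real.norm_eq_abs, Real.norm_eq_abs, abs_of_nonneg ht.1,
                abs_of_nonneg (sub_nonneg.2 hs.2)]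
          _ ≤ (1 - s) * (2 * δ) + t * (2 * δ) :=
              add_le_add (mul_le_mul_of_nonneg_left h4 (sub_nonneg.2 hs.2))
                (mul_le_mul_of_nonneg_left h5 ht.1)
          _ = _ := by ring
      refine h6.trans ?_
      have h7 := mul_le_mul_of_nonneg_left (hcc s hs t ht) (show 0 ≤ 2 / c * δ by positivity)
      refine le_trans (le_of_eq ?_) h7
      field_simp
    · by_cases h4 : k = l + 1
      · subst h4
        obtain ⟨c, hc, hcc⟩ := adj_const p h1 h2 l
        refine ⟨2 / c, by positivity, ?_⟩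
        intro d δ hd s hs t ht
        have hδ : 0 ≤ δ := (norm_nonneg _).trans (hd 0)
        have e1 : ((1 - s) • d (l + 1) + s • d (l + 1 + 1)) - ((1 - t) • d l + t • d (l + 1)) =
            (1 - t) • (d (l + 1) - d l) + s • (d (l + 1 + 1) - d (l + 1)) := by module
        rw [e1]
        have h4 : ‖d (l + 1) - d l‖ ≤ 2 * δ := by
          have := norm_sub_le (d (l + 1)) (d l)
          linarith [hd (l + 1), hd l]
        have h5 : ‖d (l + 1 + 1) - d (l + 1)‖ ≤ 2 * δ := by
          have := norm_sub_le (d (l + 1 + 1)) (d (l + 1))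
          linarith [hd (l + 1), hd (l + 1 + 1)]
        have h6 : ‖(1 - t) • (d (l + 1) - d l) + s • (d (l + 1 + 1) - d (l + 1))‖ ≤
            ((1 - t) + s) * (2 * δ) := by
          calc _ ≤ ‖(1 - t) • (d (l + 1) - d l)‖ + ‖s • (d (l + 1 + 1) - d (l + 1))‖ :=
                norm_add_le _ _
            _ = (1 - t) * ‖d (l + 1) - d l‖ + s * ‖d (l + 1 + 1) - d (l + 1)‖ := by
                rw [norm_smul, norm_smul, Real.norm_eq_abs, Real.norm_eq_abs, abs_of_nonneg hs.1,
                  abs_of_nonneg (sub_nonneg.2 ht.2)]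
            _ ≤ (1 - t) * (2 * δ) + s * (2 * δ) :=
                add_le_add (mul_le_mul_of_nonneg_left h4 (sub_nonneg.2 ht.2))
                  (mul_le_mul_of_nonneg_left h5 hs.1)
            _ = _ := by ring
        refine h6.trans ?_
        have h7 := mul_le_mul_of_nonneg_left (hcc t ht s hs) (show 0 ≤ 2 / c * δ by positivity)
        rw [norm_sub_rev] at h7
        refine le_trans (le_of_eq ?_) h7
        field_simp
      · obtain ⟨c, hc, hcc⟩ := far_const p h2 k l hkl h3 h4
        refine ⟨2 / c, by positivity, ?_⟩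
        intro d δ hd s hs t ht
        have hδ : 0 ≤ δ := (norm_nonneg _).trans (hd 0)
        have h5 := norm_comb_le (hd k) (hd (k + 1)) hs
        have h6 := norm_comb_le (hd l) (hd (l + 1)) ht
        have h7 := norm_sub_le ((1 - s) • d k + s • d (k + 1)) ((1 - t) • d l + t • d (l + 1))
        have h8 := mul_le_mul_of_nonneg_left (hcc s hs t ht) (show 0 ≤ 2 / c * δ by positivity)
        have h9 : 2 / c * δ * c = 2 * δ := by field_simp
        rw [h9] at h8
        linarith

theorem key_const {ι : Type*} [Fintype ι] {m : ℕ} (p : Fin (m + 1) → (ι → ℝ))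
    (hp : Simple (List.ofFn p)) :
    ∃ L : ℝ, 0 < L ∧ ∀ (d : Fin (m + 1) → (ι → ℝ)) (δ : ℝ), (∀ i, ‖d i‖ ≤ δ) →
      ∀ k l : Fin (m + 1), ∀ s ∈ Set.Icc (0 : ℝ) 1, ∀ t ∈ Set.Icc (0 : ℝ) 1,
        ‖((1 - s) • d k + s • d (k + 1)) - ((1 - t) • d l + t • d (l + 1))‖ ≤
          L * δ * ‖((1 - s) • p k + s • p (k + 1)) - ((1 - t) • p l + t • p (l + 1))‖ := by
  obtain ⟨h1, h2⟩ := (simple_ofFn p).1 hp
  choose L hL0 hL using fun k l => pair_const p h1 h2 k l
  have hle : ∀ k l, L k l ≤ ∑ a, ∑ b, L a b := by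
    intro k l
    calc L k l ≤ ∑ b, L k b := Finset.single_le_sum (fun b _ => (hL0 k b).le) (Finset.mem_univ l)
      _ ≤ ∑ a, ∑ b, L a b := Finset.single_le_sum
          (f := fun a => ∑ b, L a b)
          (fun a _ => Finset.sum_nonneg (fun b _ => (hL0 a b).le)) (Finset.mem_univ k)
  refine ⟨∑ a, ∑ b, L a b, (hL0 0 0).trans_le (hle 0 0), ?_⟩
  intro d δ hd k l s hs t ht
  have hδ : 0 ≤ δ := (norm_nonneg _).trans (hd 0)
  refine (hL k l d δ hd s hs t ht).trans ?_
  exact mul_le_mul_of_nonneg_right (mul_le_mul_of_nonneg_right (hle k l) hδ) (norm_nonneg _)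

theorem mem_polySet_ofFn {E : Type*} [AddCommGroup E] [Module ℝ E] {m : ℕ} (p : Fin (m + 1) → E)
    (x : E) : x ∈ polySet (List.ofFn p) ↔
      ∃ k, ∃ s ∈ Set.Icc (0 : ℝ) 1, x = (1 - s) • p k + s • p (k + 1) := by
  unfold polySet
  rw [ofFn_cedges]
  constructor
  · rintro ⟨e, he, hx⟩
    rw [List.mem_ofFn] at he
    obtain ⟨k, rfl⟩ := he
    rw [segment_eq_image] at hx
    obtain ⟨s, hs, rfl⟩ := hx
    exact ⟨k, s, hs, rfl⟩
  · rintro ⟨k, s, hs, rfl⟩
    refine ⟨(p k, p (k + 1)), by rw [List.mem_ofFn]; exact ⟨k, rfl⟩, ?_⟩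
    rw [segment_eq_image]
    exact ⟨s, hs, rfl⟩

theorem local_step {ι : Type*} [Fintype ι] {m : ℕ} (p : Fin (m + 1) → (ι → ℝ))
    (hp : Simple (List.ofFn p)) :
    ∃ ε : ℝ, 0 < ε ∧ ∀ q : Fin (m + 1) → (ι → ℝ), (∀ i, ‖q i - p i‖ < ε) →
      AmbIso (polySet (List.ofFn p)) (polySet (List.ofFn q)) := by
  classical
  obtain ⟨L, hL, hkey⟩ := key_const p hp
  refine ⟨1 / (2 * L), by positivity, ?_⟩
  intro q hq
  let d : Fin (m + 1) → (ι → ℝ) := fun i => q i - p i
  have hd : ∀ i, ‖d i‖ ≤ 1 / (2 * L) := fun i => (hq i).le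
  have hk2 : L * (1 / (2 * L)) = 1 / 2 := by field_simp
  have key : ∀ k l : Fin (m + 1), ∀ s ∈ Set.Icc (0 : ℝ) 1, ∀ t ∈ Set.Icc (0 : ℝ) 1,
      ‖((1 - s) • d k + s • d (k + 1)) - ((1 - t) • d l + t • d (l + 1))‖ ≤
        1 / 2 * ‖((1 - s) • p k + s • p (k + 1)) - ((1 - t) • p l + t • p (l + 1))‖ := by
    intro k l s hs t ht
    have := hkey d _ hd k l s hs t ht
    rwa [hk2] at this
  let A := polySet (List.ofFn p)
  have hrep : ∀ x ∈ A, ∃ k, ∃ s ∈ Set.Icc (0 : ℝ) 1, x = (1 - s) • p k + s • p (k + 1) :=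
    fun x hx => (mem_polySet_ofFn p x).1 hx
  choose! kk ss hss hxx using hrep
  let D0 : (ι → ℝ) → (ι → ℝ) := fun x => (1 - ss x) • d (kk x) + ss x • d (kk x + 1)
  have hD0 : ∀ k, ∀ s ∈ Set.Icc (0 : ℝ) 1,
      D0 ((1 - s) • p k + s • p (k + 1)) = (1 - s) • d k + s • d (k + 1) := by
    intro k s hs
    have hxA : (1 - s) • p k + s • p (k + 1) ∈ A := (mem_polySet_ofFn p _).2 ⟨k, s, hs, rfl⟩
    have h1 := key k (kk ((1 - s) • p k + s • p (k + 1))) s hs _ (hss _ hxA)
    rw [← hxx _ hxA, sub_self, norm_zero, mul_zero] at h1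
    have h2 := norm_le_zero_iff.1 h1
    exact (sub_eq_zero.1 h2).symm
  have hlip : LipschitzOnWith (1 / 2 : NNReal) D0 A := by
    apply LipschitzOnWith.of_dist_le_mul
    intro x hx y hy
    rw [dist_eq_norm, dist_eq_norm]
    have h1 := key (kk x) (kk y) (ss x) (hss x hx) (ss y) (hss y hy)
    rw [← hxx x hx, ← hxx y hy] at h1
    simpa using h1
  obtain ⟨g, hg, hgA⟩ := hlip.extend_pi
  have hiso := ambIso_of_lipschitz g (1 / 2 : NNReal) (by
    rw [← NNReal.coe_lt_coe]; norm_num) hg A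
  have himg : (fun x => x + g x) '' A = polySet (List.ofFn q) := by
    ext y
    rw [mem_polySet_ofFn]
    constructor
    · rintro ⟨x, hx, rfl⟩
      obtain ⟨k, s, hs, rfl⟩ := (mem_polySet_ofFn p x).1 hx
      refine ⟨k, s, hs, ?_⟩
      show _ + g _ = _
      rw [← hgA hx, hD0 k s hs]
      simp only [d]
      module
    · rintro ⟨k, s, hs, rfl⟩
      have hx : (1 - s) • p k + s • p (k + 1) ∈ A := (mem_polySet_ofFn p _).2 ⟨k, s, hs, rfl⟩
      refine ⟨_, hx, ?_⟩
      show _ + g _ = _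
      rw [← hgA hx, hD0 k s hs]
      simp only [d]
      module
  rw [himg] at hiso
  exact hiso

theorem ambIso_motion {ι : Type*} [Fintype ι] {n : ℕ} (v : ℝ → Fin n → (ι → ℝ))
    (hv : Continuous v) (hs : ∀ t ∈ Set.Icc (0 : ℝ) 1, Simple (List.ofFn (v t))) :
    AmbIso (polySet (List.ofFn (v 0))) (polySet (List.ofFn (v 1))) := by
  cases n with
  | zero =>
    simp only [List.ofFn_zero]
    exact AmbIso.refl _
  | succ m =>
    have h01 : (0 : ℝ) ∈ Set.Icc (0 : ℝ) 1 := ⟨le_rfl, zero_le_one⟩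
    have h11 : (1 : ℝ) ∈ Set.Icc (0 : ℝ) 1 := ⟨zero_le_one, le_rfl⟩
    refine (isPreconnected_Icc (a := (0 : ℝ)) (b := 1)).induction₂
      (fun s t => AmbIso (polySet (List.ofFn (v s))) (polySet (List.ofFn (v t)))) ?_ ?_ ?_ h01 h11
    · intro t ht
      obtain ⟨ε, hε, hloc⟩ := local_step (v t) (hs t ht)
      have hcont : ContinuousAt v t := hv.continuousAt
      have hev : ∀ᶠ u in nhds t, dist (v u) (v t) < ε := Metric.continuousAt_iff'.1 hcont ε hε
      refine Filter.Eventually.filter_mono nhdsWithin_le_nhds ?_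
      filter_upwards [hev] with u hu
      apply hloc
      intro i
      rw [← dist_eq_norm]
      exact (dist_le_pi_dist _ _ i).trans_lt hu
    · intro x y z _ _ _ hxy hyz
      exact hxy.trans hyz
    · intro x y _ _ hxy
      exact hxy.symm

theorem polySet_rotate {E : Type*} [AddCommGroup E] [Module ℝ E] (L : List E) :
    polySet (L.rotate 1) = polySet L := by
  have h : ∀ e, e ∈ cedges (L.rotate 1) ↔ e ∈ cedges L := by
    intro e
    have h1 : cedges (L.rotate 1) = (cedges L).rotate 1 := by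
      unfold cedges
      apply List.ext_getElem
      · simp
      · intro i h1 h2
        simp only [List.getElem_zip, List.getElem_rotate, List.length_zip, List.length_rotate,
          min_self]
    rw [h1, List.mem_rotate]
  unfold polySet
  ext q
  simp only [h]

theorem polySet_insert {E : Type*} [AddCommGroup E] [Module ℝ E] (a b : E) (L : List E) (s : ℝ)
    (h0 : 0 < s) (h1 : s < 1) :
    polySet (a :: ((1 - s) • a + s • b) :: b :: L) = polySet (a :: b :: L) := by
  have e1 : cedges (a :: b :: L) = (a, b) :: ((b :: L).zip (L ++ [a])) := by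
    unfold cedges
    simp
  have e2 : cedges (a :: ((1 - s) • a + s • b) :: b :: L) =
      (a, (1 - s) • a + s • b) :: ((1 - s) • a + s • b, b) :: ((b :: L).zip (L ++ [a])) := by
    unfold cedges
    simp
  have hseg : segment ℝ a ((1 - s) • a + s • b) ∪ segment ℝ ((1 - s) • a + s • b) b =
      segment ℝ a b := by
    have hx : (1 - s) • a + s • b ∈ segment ℝ a b := ⟨1 - s, s, by linarith, h0.le, by ring, rfl⟩
    apply Set.Subset.antisymm
    · apply Set.union_subset
      · exact (convex_segment a b).segment_subset (left_mem_segment ℝ a b) hx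
      · exact (convex_segment a b).segment_subset hx (right_mem_segment ℝ a b)
    · intro y hy
      rw [segment_eq_image] at hy
      obtain ⟨t, ht, rfl⟩ := hy
      rcases le_total t s with h | h
      · left
        rw [segment_eq_image]
        refine ⟨t / s, ⟨div_nonneg ht.1 h0.le, (div_le_one h0).2 h⟩, ?_⟩
        have hs : s ≠ 0 := h0.ne'
        show (1 - t / s) • a + (t / s) • ((1 - s) • a + s • b) = (1 - t) • a + t • b
        rw [smul_add, smul_smul, smul_smul, ← add_assoc, ← add_smul]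
        congr 2 <;> field_simp
        ring
      · right
        rw [segment_eq_image]
        have hs : 1 - s ≠ 0 := by linarith
        refine ⟨(t - s) / (1 - s), ⟨div_nonneg (by linarith) (by linarith),
          (div_le_one (by linarith)).2 (by linarith [ht.2])⟩, ?_⟩
        show (1 - (t - s) / (1 - s)) • ((1 - s) • a + s • b) + ((t - s) / (1 - s)) • b =
          (1 - t) • a + t • b
        rw [smul_add, smul_smul, smul_smul, add_assoc, ← add_smul]
        congr 2 <;> field_simp <;> ring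
  unfold polySet
  ext q
  simp only [Set.mem_setOf_eq, e1, e2, List.mem_cons, exists_eq_or_imp, ← hseg, Set.mem_union]
  tauto

/-- Equivalent polygons are ambient isotopic. -/
theorem ambIso_of_eqv {ι : Type*} [Fintype ι] (P Q : List (ι → ℝ)) (h : Eqv P Q) :
    AmbIso (polySet P) (polySet Q) := by
  induction h with
  | rel x y h =>
    cases h with
    | motion v hv hs => exact ambIso_motion v hv hs
    | insert a b L s h0 h1 =>
      rw [polySet_insert a b L s h0 h1]
      exact AmbIso.refl _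
    | rotate L =>
      rw [polySet_rotate]
      exact AmbIso.refl _
  | refl x => exact AmbIso.refl _
  | symm x y _ ih => exact ih.symm
  | trans x y z _ _ ih1 ih2 => exact ih1.trans ih2

end Knot548
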