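import Pool.Agent.Helper548.KnotD.D5

/-! Ambient isotopy with real time parameter. -/

set_option autoImplicit false
set_option backward.isDefEq.respectTransparency.types false

namespace Knot548

theorem AmbIso.real {X : Type*} [TopologicalSpace X] {A B : Set X} (h : AmbIso A B) :
    ∃ H : ℝ → X → X, Continuous (fun p : ℝ × X => H p.1 p.2) ∧ (∀ t, IsHomeomorph (H t)) ∧
      H 0 = id ∧ H 1 '' A = B := by
  obtain ⟨H, hc, h0, h1⟩ := h
  refine ⟨fun t x => H (Set.projIcc 0 1 zero_le_one t) x, ?_, ?_, ?_, ?_⟩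
  · exact hc.comp (((continuous_projIcc (h := zero_le_one (α := ℝ))).comp
      continuous_fst).prodMk continuous_snd)
  · intro t
    exact (H (Set.projIcc 0 1 zero_le_one t)).isHomeomorph
  · funext x
    have : Set.projIcc (0 : ℝ) 1 zero_le_one 0 = 0 := Set.projIcc_left _
    show H (Set.projIcc (0 : ℝ) 1 zero_le_one 0) x = x
    rw [this]
    exact h0 x
  · have : Set.projIcc (0 : ℝ) 1 zero_le_one 1 = 1 := Set.projIcc_right _
    show (fun x => H (Set.projIcc (0 : ℝ) 1 zero_le_one 1) x) '' A = B
    rw [this]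
    exact h1

end Knot548
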